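import Pool.Agent.helper71.CL.Spec
import Pool.Agent.helper81.CW.Lower

/-! # Project cl (MP_447e26_gt), module MVB: bounds for `mvol` -/

set_option autoImplicit false

open MeasureTheory Set Filter Topology
open scoped ENNReal
open Pool.Agent.helper81.CW

noncomputable section

namespace Pool.Agent.CL

lemma MVB_supp {n : ℕ} (u : E n) (hu : ‖u‖ = 1) :
    supp (Metric.closedBall (0 : E n) (1 / 2)) u = 1 / 2 := by
  unfold supp
  apply le_antisymm
  · apply csSup_le
    · exact ⟨_, ⟨0, by simp, rfl⟩⟩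
    · rintro _ ⟨x, hx, rfl⟩
      have h1 : ‖x‖ ≤ 1 / 2 := by simpa using hx
      have h2 := real_inner_le_norm u x
      rw [hu, one_mul] at h2
      exact h2.trans h1
  · apply le_csSup
    · refine ⟨1 / 2, ?_⟩
      rintro _ ⟨x, hx, rfl⟩
      have h1 : ‖x‖ ≤ 1 / 2 := by simpa using hx
      have h2 := real_inner_le_norm u x
      rw [hu, one_mul] at h2
      exact h2.trans h1
    · refine ⟨(1 / 2 : ℝ) • u, ?_, ?_⟩
      · simp [norm_smul, hu]
      · simp only [inner_smul_right, real_inner_self_eq_norm_sq, hu]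
        norm_num

lemma MVB_ball (n : ℕ) : ConstWidth (Metric.closedBall (0 : E n) (1 / 2)) 1 := by
  refine ⟨⟨0, by simp⟩, isCompact_closedBall _ _, convex_closedBall _ _, one_pos, ?_⟩
  intro u hu
  rw [MVB_supp u hu, MVB_supp (-u) (by rw [norm_neg, hu])]
  norm_num

/-- **MVB**. -/
theorem MVB : MVB_stmt := by
  intro n hn
  constructor
  · have h1 : mvol n ≤ volume (Metric.closedBall (0 : E n) (1 / 2)) /
        volume (Metric.closedBall (0 : E n) (1 / 2)) :=
      iInf_le (fun p : {p : Set (E n) × ℝ // ConstWidth p.1 p.2} =>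
        volume p.1.1 / volume (Metric.closedBall (0 : E n) (p.1.2 / 2)))
        ⟨(Metric.closedBall (0 : E n) (1 / 2), 1), MVB_ball n⟩
    exact h1.trans ENNReal.div_self_le_one
  · refine le_trans ?_ (lower_mvol (n := n) (by omega))
    apply ENNReal.ofReal_le_ofReal
    have h3 : (1 : ℝ) ≤ √3 := by
      rw [Real.one_le_sqrt]
      norm_num
    have h4 : √3 ≤ √(3 + 2 / ((n : ℝ) + 1)) := by
      apply Real.sqrt_le_sqrt
      have : (0 : ℝ) ≤ 2 / ((n : ℝ) + 1) := by positivity
      linarith
    exact pow_le_pow_left₀ (by linarith) (by linarith) n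

end Pool.Agent.CL
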